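import Pool.Agent.R569.CS.Main

/-!
# Torelli groups of finite covers in the outer automorphism group

`TAut Γ` is the preimage in `Aut (G)` of the image in `Out (G)` of the group of the automorphisms
acting trivially on `G / Γ` and on `Γ / [Γ, Γ]`.
-/

set_option autoImplicit false

namespace Pool.Agent.N66.TJ

open Pool.Agent.R569.CS
open scoped commutatorElement

universe u

variable {G : Type u} [Group G]

/-- the automorphisms acting trivially on `G / Γ` and on `Γ / [Γ, Γ]`, and the inner ones -/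
def TAut (Γ : Subgroup G) [Γ.Normal] : Subgroup (MulAut G) :=
  lay (MonoidHom.id (MulAut G)) Γ ⁅Γ, Γ⁆ ⊔ (MulAut.conj : G →* MulAut G).range

theorem sepAb [Group.FG G] (Γ : Subgroup G) [hf : Γ.FiniteIndex] {y : G} (hy : y ∈ Γ)
    (hn : y ∉ (⁅Γ, Γ⁆ : Subgroup G)) :
    ∃ S : Subgroup G, S.FiniteIndex ∧ ⁅Γ, Γ⁆ ≤ S ∧ y ∉ S := by
  have h1 : Group.FG Γ := Subgroup.fg_of_index_ne_zero Γ
  have h2 : Group.FG (Abelianization Γ) := QuotientGroup.fg _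
  have hc : (commutator Γ).map Γ.subtype = ⁅Γ, Γ⁆ := by
    rw [commutator_def, Subgroup.map_commutator, ← MonoidHom.range_eq_map, Subgroup.range_subtype]
  have hne : (Abelianization.of (⟨y, hy⟩ : Γ)) ≠ 1 := by
    intro h
    apply hn
    rw [← hc]
    exact ⟨⟨y, hy⟩, (QuotientGroup.eq_one_iff _).1 h, rfl⟩
  obtain ⟨r, -, -, N, hN, hN1, hN2, -⟩ := Pool.Agent.Helper111.EN.resid (K := Abelianization Γ) ∅
      (by simp) 2 Nat.prime_two (by simp) (by simp) _ hne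
  have hNf : N.FiniteIndex := Subgroup.finiteIndex_of_finite_quotient
  have hS0 : (N.comap (Abelianization.of : Γ →* Abelianization Γ)).FiniteIndex := fi_comap _ _
  refine ⟨(N.comap (Abelianization.of : Γ →* Abelianization Γ)).map Γ.subtype, ?_, ?_, ?_⟩
  · constructor
    rw [Subgroup.index_map_subtype]
    exact mul_ne_zero hS0.index_ne_zero Subgroup.FiniteIndex.index_ne_zero
  · rw [← hc]
    apply Subgroup.map_mono
    intro z hz
    rw [Subgroup.mem_comap]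
    have : (Abelianization.of z : Abelianization Γ) = 1 := (QuotientGroup.eq_one_iff _).2 hz
    rw [this]
    exact N.one_mem
  · rintro ⟨z, hz, hz2⟩
    have : z = ⟨y, hy⟩ := Subtype.ext hz2
    rw [this] at hz
    exact hN1 hz

theorem sepAct [Group.FG G] (Γ : Subgroup G) [hN : Γ.Normal] [hf : Γ.FiniteIndex] :
    ∃ S : Subgroup G, S.FiniteIndex ∧ ⁅Γ, Γ⁆ ≤ S ∧
      ∀ g : G, (∀ x ∈ Γ, g * x * g⁻¹ * x⁻¹ ∈ S) →
        ∀ x ∈ Γ, g * x * g⁻¹ * x⁻¹ ∈ (⁅Γ, Γ⁆ : Subgroup G) := by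
  have hfin : Finite (G ⧸ Γ) := Subgroup.finite_quotient_of_finiteIndex
  let B : Type u := {q : G ⧸ Γ // ∃ x ∈ Γ,
    Quotient.out q * x * (Quotient.out q)⁻¹ * x⁻¹ ∉ (⁅Γ, Γ⁆ : Subgroup G)}
  have h1 : ∀ q : B, ∃ (x : G) (S : Subgroup G), x ∈ Γ ∧ S.FiniteIndex ∧ ⁅Γ, Γ⁆ ≤ S ∧
      Quotient.out q.1 * x * (Quotient.out q.1)⁻¹ * x⁻¹ ∉ S := by
    rintro ⟨q, x, hx, hq⟩
    have hy : Quotient.out q * x * (Quotient.out q)⁻¹ * x⁻¹ ∈ Γ :=
      Γ.mul_mem (hN.conj_mem x hx _) (Γ.inv_mem hx)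
    obtain ⟨S, h1, h2, h3⟩ := sepAb Γ hy hq
    exact ⟨x, S, hx, h1, h2, h3⟩
  choose x S hx hS1 hS2 hS3 using h1
  refine ⟨⨅ q : B, S q, Subgroup.finiteIndex_iInf fun q => hS1 q, le_iInf hS2, ?_⟩
  intro g hg y hy
  by_contra hno
  have hout : (QuotientGroup.mk (Quotient.out (QuotientGroup.mk g : G ⧸ Γ)) : G ⧸ Γ) =
      QuotientGroup.mk g := QuotientGroup.out_eq' _
  set g0 : G := Quotient.out (QuotientGroup.mk g : G ⧸ Γ) with hg0
  have hr : g0⁻¹ * g ∈ Γ := QuotientGroup.eq.1 hout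
  have key : ∀ z ∈ Γ, ∃ c ∈ (⁅Γ, Γ⁆ : Subgroup G),
      g * z * g⁻¹ * z⁻¹ = c * (g0 * z * g0⁻¹ * z⁻¹) := by
    intro z hz
    refine ⟨g0 * ⁅g0⁻¹ * g, z⁆ * g0⁻¹, ?_, ?_⟩
    · have hnorm : (⁅Γ, Γ⁆ : Subgroup G).Normal := inferInstance
      exact hnorm.conj_mem _ (Subgroup.commutator_mem_commutator hr hz) g0
    · rw [commutatorElement_def]
      group
  have hbad : ∃ z ∈ Γ, g0 * z * g0⁻¹ * z⁻¹ ∉ (⁅Γ, Γ⁆ : Subgroup G) := by
    refine ⟨y, hy, fun h => hno ?_⟩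
    obtain ⟨c, hc, he⟩ := key y hy
    rw [he]
    exact Subgroup.mul_mem _ hc h
  let q : B := ⟨QuotientGroup.mk g, hbad⟩
  obtain ⟨c, hc, he⟩ := key (x q) (hx q)
  have h2 := hg (x q) (hx q)
  rw [Subgroup.mem_iInf] at h2
  have h3 := h2 q
  rw [he] at h3
  apply hS3 q
  exact ((S q).mul_mem_cancel_left (hS2 q hc)).1 h3

/-- the finite group `TAut Γ / IAut Γ` has the congruence property -/
theorem key [Group.FG G] (Γ : Subgroup G) [hc : Γ.Characteristic] [hf : Γ.FiniteIndex]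
    (V : Subgroup (TAut Γ)) (hle : lay (TAut Γ).subtype Γ ⁅Γ, Γ⁆ ≤ V) :
    ∃ K : Subgroup G, K.Characteristic ∧ K.FiniteIndex ∧ act (TAut Γ).subtype K ≤ V := by
  obtain ⟨S, hS1, hS2, hS3⟩ := sepAct Γ
  obtain ⟨K, hK1, hK2, hK3⟩ := charCore (S ⊓ Γ) inferInstance
  refine ⟨K, hK1, hK2, ?_⟩
  rintro ⟨a, ha⟩ hact
  apply hle
  have hnorm : (lay (MonoidHom.id (MulAut G)) Γ ⁅Γ, Γ⁆).Normal := lay_normal _ _ _
  have ha2 := ha
  unfold TAut at ha2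
  rw [← SetLike.mem_coe, Subgroup.normal_mul] at ha2
  obtain ⟨φ, hφ, ι, ⟨g, hg⟩, hmul⟩ := ha2
  subst hg
  have hax : ∀ x, a x = φ (g * x * g⁻¹) := by
    intro x
    rw [← hmul]
    rfl
  have hm : ∀ x, a x * x⁻¹ = (φ (g * x * g⁻¹) * (g * x * g⁻¹)⁻¹) * (g * x * g⁻¹ * x⁻¹) := by
    intro x
    rw [hax x]
    group
  have hK : ∀ x, a x * x⁻¹ ∈ K := hact
  have hin : MulAut.conj g ∈ lay (MonoidHom.id (MulAut G)) Γ ⁅Γ, Γ⁆ := by
    constructor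
    · intro x
      have h1 := (hK3 (hK x)).2
      rw [hm x] at h1
      exact (Γ.mul_mem_cancel_left (hφ.1 _)).1 h1
    · apply hS3
      intro x hx
      have h1 := (hK3 (hK x)).1
      rw [hm x] at h1
      have h2 : φ (g * x * g⁻¹) * (g * x * g⁻¹)⁻¹ ∈ (⁅Γ, Γ⁆ : Subgroup G) :=
        hφ.2 _ ((inferInstance : Γ.Normal).conj_mem x hx g)
      exact (S.mul_mem_cancel_left (hS2 h2)).1 h1
  have h3 := Subgroup.mul_mem _ hφ hin
  rw [show φ * MulAut.conj g = a from hmul] at h3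
  exact h3

/-- finite-index subgroups of the Torelli group of a finite cover in `Out (G)` -/
theorem outer_torelli [Group.FG G] (Γ : Subgroup G) [Γ.Characteristic] [Γ.FiniteIndex] (c : ℕ)
    (V : Subgroup (TAut Γ)) (hV : V.FiniteIndex) (hinn : ∀ a : TAut Γ, (∃ g, a.1 = MulAut.conj g) → a ∈ V)
    (h : ∀ a : TAut Γ, (∃ g, ∀ x, a.1 x * (g * x * g⁻¹)⁻¹ ∈ Γ.lowerCentralSeries c) → a ∈ V) :
    ∃ K : Subgroup G, K.Characteristic ∧ K.FiniteIndex ∧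
      ∀ a : TAut Γ, (∃ g, ∀ x, a.1 x * (g * x * g⁻¹)⁻¹ ∈ K) → a ∈ V := by
  obtain ⟨K, hK1, hK2, hK3⟩ := csp_all (TAut Γ).subtype Γ (fun V' _ hle => key Γ V' hle) c V hV
    (fun a ha => h a ⟨1, fun x => by
      have := ha x
      simpa using this⟩)
  refine ⟨K, hK1, hK2, ?_⟩
  rintro a ⟨g, hg⟩
  have hgm : MulAut.conj g ∈ TAut Γ := Subgroup.mem_sup_right ⟨g, rfl⟩
  have h2 : (⟨MulAut.conj g, hgm⟩ : TAut Γ)⁻¹ * a ∈ act (TAut Γ).subtype K := by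
    intro x
    have h3 : ((MulAut.conj g)⁻¹ * a.1 : MulAut G) x * x⁻¹ =
        (MulAut.conj g)⁻¹ (a.1 x * (g * x * g⁻¹)⁻¹) := by
      rw [MulAut.mul_apply, map_mul, map_inv, MulAut.conj_inv_apply, MulAut.conj_inv_apply]
      group
    show ((MulAut.conj g)⁻¹ * a.1 : MulAut G) x * x⁻¹ ∈ K
    rw [h3]
    exact Subgroup.characteristic_iff_le_comap.1 hK1 ((MulAut.conj g)⁻¹) (hg x)
  have h4 := V.mul_mem (hinn ⟨MulAut.conj g, hgm⟩ ⟨g, rfl⟩) (hK3 h2)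
  rwa [mul_inv_cancel_left] at h4

/-- the reduction to the linear action, for subgroups of `Out (G)` -/
theorem outer_general [Group.FG G] (A : Subgroup (MulAut G)) (hA : ∀ x : G, MulAut.conj x ∈ A)
    (Γ : Subgroup G) [Γ.Characteristic] [Γ.FiniteIndex]
    (hyp : ∀ V : Subgroup A, V.FiniteIndex →
      (∀ a : A, a.1 ∈ lay (MonoidHom.id (MulAut G)) Γ ⁅Γ, Γ⁆ → a ∈ V) →
        ∃ K : Subgroup G, K.Characteristic ∧ K.FiniteIndex ∧
          ∀ a : A, (∀ x, a.1 x * x⁻¹ ∈ K) → a ∈ V) (c : ℕ)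
    (V : Subgroup A) (hV : V.FiniteIndex)
    (h : ∀ a : A, (∃ g, ∀ x, a.1 x * (g * x * g⁻¹)⁻¹ ∈ Γ.lowerCentralSeries c) → a ∈ V) :
    ∃ K : Subgroup G, K.Characteristic ∧ K.FiniteIndex ∧
      ∀ a : A, (∃ g, ∀ x, a.1 x * (g * x * g⁻¹)⁻¹ ∈ K) → a ∈ V := by
  obtain ⟨K, hK1, hK2, hK3⟩ := csp_all A.subtype Γ (fun V' hV' hle => by
    obtain ⟨K, h1, h2, h3⟩ := hyp V' hV' (fun a ha => hle ha)
    exact ⟨K, h1, h2, fun a ha => h3 a ha⟩) c V hV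
    (fun a ha => h a ⟨1, fun x => by
      have := ha x
      simpa using this⟩)
  refine ⟨K, hK1, hK2, ?_⟩
  rintro a ⟨g, hg⟩
  have h2 : (⟨MulAut.conj g, hA g⟩ : A)⁻¹ * a ∈ act A.subtype K := by
    intro x
    have h3 : ((MulAut.conj g)⁻¹ * a.1 : MulAut G) x * x⁻¹ =
        (MulAut.conj g)⁻¹ (a.1 x * (g * x * g⁻¹)⁻¹) := by
      rw [MulAut.mul_apply, map_mul, map_inv, MulAut.conj_inv_apply, MulAut.conj_inv_apply]
      group
    show ((MulAut.conj g)⁻¹ * a.1 : MulAut G) x * x⁻¹ ∈ K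
    rw [h3]
    exact Subgroup.characteristic_iff_le_comap.1 hK1 ((MulAut.conj g)⁻¹) (hg x)
  have hcg : (⟨MulAut.conj g, hA g⟩ : A) ∈ V := by
    refine h _ ⟨g, fun x => ?_⟩
    show MulAut.conj g x * (g * x * g⁻¹)⁻¹ ∈ Γ.lowerCentralSeries c
    rw [MulAut.conj_apply, mul_inv_cancel]
    exact Subgroup.one_mem _
  have h4 := V.mul_mem hcg (hK3 h2)
  rwa [mul_inv_cancel_left] at h4

end Pool.Agent.N66.TJ
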